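import Pool.Agent.Work.MP_db9399_lt_helper67.EDG

/-!
# MP_db9399, THEOREM LT: block DRB (the few remaining inner edges, balanced colours)
-/

set_option autoImplicit false
set_option linter.unusedSectionVars false

namespace Pool.Agent.Work.MP_db9399_lt.helper67

open Finset Classical
open Pool.Agent.Work.MP_db9399_all (nb)
open Pool.Agent.Work.MP_db9399_nc (nn PEC Mts)

universe u

variable {V : Type u} [Fintype V]

/-- the degree sum of a side -/
theorem deg_sum {Y : SimpleGraph V} {r : V → ℕ} (hr : Function.Injective r) (sd : V → Bool)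
    (β : Bool) (hs : ∀ v w, Y.Adj v w → sd v = sd w) :
    ∑ v ∈ univ.filter (fun v => sd v = β), (nb Y v).card =
      2 * (univ.filter (fun i : Ie Y r => sd i.1.1 = β)).card := by
  let D : Finset (V × V) := univ.filter (fun a => Y.Adj a.1 a.2 ∧ sd a.1 = β)
  have hD : D.card = ∑ v ∈ univ.filter (fun v => sd v = β), (nb Y v).card := by
    rw [Finset.card_eq_sum_card_fiberwise (f := fun a : V × V => a.1)
      (t := univ.filter (fun v => sd v = β))]
    · refine Finset.sum_congr rfl ?_
      intro v hv
      rw [Finset.mem_filter] at hv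
      refine Finset.card_bij (fun a _ => a.2) ?_ ?_ ?_
      · intro a ha
        simp only [D, Finset.mem_filter, Finset.mem_univ, true_and] at ha
        rw [mem_nb, ← ha.2]
        exact ha.1.1
      · intro a ha a' ha' h
        simp only [D, Finset.mem_filter, Finset.mem_univ, true_and] at ha ha'
        exact Prod.ext (ha.2.trans ha'.2.symm) h
      · intro w hw
        rw [mem_nb] at hw
        refine ⟨(v, w), ?_, rfl⟩
        simp only [D, Finset.mem_filter, Finset.mem_univ, true_and]
        exact ⟨⟨hw, hv.2⟩, trivial⟩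
    · intro a ha
      simp only [D, Finset.coe_filter, Finset.mem_univ, true_and, Set.mem_setOf_eq] at ha ⊢
      exact ha.2
  have h1 : (D.filter (fun a => r a.1 < r a.2)).card =
      (univ.filter (fun i : Ie Y r => sd i.1.1 = β)).card := by
    symm
    refine Finset.card_bij (fun i _ => i.1) ?_ ?_ ?_
    · intro i hi
      simp only [D, Finset.mem_filter, Finset.mem_univ, true_and] at hi ⊢
      exact ⟨⟨i.2.1, hi⟩, i.2.2⟩
    · intro i _ j _ h
      exact Subtype.ext h
    · intro a ha
      simp only [D, Finset.mem_filter, Finset.mem_univ, true_and] at ha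
      refine ⟨⟨a, ha.1.1, ha.2⟩, ?_, rfl⟩
      simp only [Finset.mem_filter, Finset.mem_univ, true_and]
      exact ha.1.2
  have h2 : (D.filter (fun a => ¬ r a.1 < r a.2)).card =
      (D.filter (fun a => r a.1 < r a.2)).card := by
    refine Finset.card_bij (fun a _ => (a.2, a.1)) ?_ ?_ ?_
    · intro a ha
      simp only [D, Finset.mem_filter, Finset.mem_univ, true_and] at ha ⊢
      have h3 : r a.1 ≠ r a.2 := fun hh => ha.1.1.ne (hr hh)
      exact ⟨⟨ha.1.1.symm, (hs _ _ ha.1.1).symm.trans ha.1.2⟩, by omega⟩
    · intro a _ a' _ h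
      rw [Prod.mk.injEq] at h
      exact Prod.ext h.2 h.1
    · intro a ha
      simp only [D, Finset.mem_filter, Finset.mem_univ, true_and] at ha
      refine ⟨(a.2, a.1), ?_, rfl⟩
      simp only [D, Finset.mem_filter, Finset.mem_univ, true_and]
      exact ⟨⟨ha.1.1.symm, (hs _ _ ha.1.1).symm.trans ha.1.2⟩, by omega⟩
  have h3 := Finset.card_filter_add_card_filter_not (s := D) (fun a => r a.1 < r a.2)
  rw [← hD, ← h3, h2, h1]
  omega

/-- counting through a subtype -/
theorem card_sub {α : Type u} [Fintype α] {γ : Type u} [Fintype γ] (f : γ → α)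
    (hf : Function.Injective f) (S : α → Prop) (n : ℕ)
    (h : (univ.filter (fun a => S a)).card ≤ n) :
    (univ.filter (fun c : γ => S (f c))).card ≤ n := by
  refine le_trans (Finset.card_le_card_of_injOn f ?_ hf.injOn) h
  intro c hc
  simpa using hc

theorem stmt_DRB (hG : Pool.Agent.Work.MP_db9399_nc.Stmt_GRS.{u}) : Stmt_DRB.{u} := by
  intro V _ Y sd p l P0 hbal hs hl hsum hP hp
  obtain ⟨r, hr⟩ := exists_num (V := V)
  have hdt := deg_sum hr sd true hs
  have hdf := deg_sum hr sd false hs
  have hcard : Fintype.card {i : Ie Y r // sd i.1.1 = true} =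
      Fintype.card {i : Ie Y r // sd i.1.1 = false} := by
    rw [Fintype.card_subtype, Fintype.card_subtype]
    have : 2 * (univ.filter (fun i : Ie Y r => sd i.1.1 = true)).card =
        2 * (univ.filter (fun i : Ie Y r => sd i.1.1 = false)).card := by
      rw [← hdt, ← hdf, hsum]
    omega
  have e : {i : Ie Y r // sd i.1.1 = true} ≃ {i : Ie Y r // sd i.1.1 = false} :=
    Fintype.equivOfCardEq hcard
  have hq : 2 * Fintype.card {i : Ie Y r // sd i.1.1 = true} ≤ p * l := by
    rw [Fintype.card_subtype, ← hdt]
    refine (Finset.sum_le_card_nsmul _ _ l (fun v _ => hl v)).trans ?_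
    rw [hbal.t, smul_eq_mul]
  obtain ⟨τ, hτ1, hτ2, hτ3⟩ := hG (ι := {i : Ie Y r // sd i.1.1 = true}) (β := PUnit.{u + 1})
    (fun i j => meet i.1 j.1 ∨ meet (e i).1 (e j).1) (fun _ => PUnit.unit)
    (fun _ => PUnit.unit) (fun _ => p / 100) (51 * l) (4 * l) 0 P0 (fun _ => ∅)
    (fun i j hij => by
      rcases hij with h | h
      · exact Or.inl (meet_symm h)
      · exact Or.inr (meet_symm h))
    (by
      intro i
      have h1 := card_sub (fun j : {i : Ie Y r // sd i.1.1 = true} => j.1)
        Subtype.val_injective (fun j => meet i.1 j) _ (meet_card hl i.1)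
      have h2 := card_sub (fun j : {i : Ie Y r // sd i.1.1 = true} => (e j).1)
        (Subtype.val_injective.comp e.injective) (fun j => meet (e i).1 j) _
        (meet_card hl (e i).1)
      have h3 : (univ.filter (fun j : {i : Ie Y r // sd i.1.1 = true} =>
          meet i.1 j.1 ∨ meet (e i).1 (e j).1)) ⊆
          (univ.filter (fun j : {i : Ie Y r // sd i.1.1 = true} => meet i.1 j.1)) ∪
          (univ.filter (fun j : {i : Ie Y r // sd i.1.1 = true} =>
            meet (e i).1 (e j).1)) := by
        intro j hj
        simpa using hj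
      have h4 := Finset.card_le_card h3
      have h5 := h4.trans (Finset.card_union_le _ _)
      refine le_trans (Finset.card_le_card (t := univ.filter
        (fun j : {i : Ie Y r // sd i.1.1 = true} =>
          meet i.1 j.1 ∨ meet (e i).1 (e j).1)) ?_) ?_
      · intro j hj
        simpa using hj
      · omega)
    (fun i => by simp) (fun _ => by omega)
    (by
      intro _
      refine (Finset.card_le_univ _).trans ?_
      have h1 : 50 * p ≤ 51 * (100 * (p / 100)) := by omega
      have h2 := Nat.mul_le_mul_right l h1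
      nlinarith)
    (by omega)
  -- the colouring of all edges
  have hff : ∀ i : Ie Y r, ¬ sd i.1.1 = true → sd i.1.1 = false := fun i h => by
    simpa using h
  let τ' : Ie Y r → ℕ := fun i => if h : sd i.1.1 = true then τ ⟨i, h⟩ else
    τ (e.symm ⟨i, hff i h⟩)
  have ht1 : ∀ i (h : sd i.1.1 = true), τ' i = τ ⟨i, h⟩ := fun i h => dif_pos h
  have ht2 : ∀ i (h : sd i.1.1 = false), τ' i = τ (e.symm ⟨i, h⟩) := fun i h =>
    dif_neg (by rw [h]; simp)
  have hmeet : ∀ i j : Ie Y r, meet i j → sd i.1.1 = sd j.1.1 := by
    intro i j h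
    have h1 := hs _ _ i.2.1
    have h2 := hs _ _ j.2.1
    rcases h with h | h | h | h
    · rw [h]
    · rw [h, h2]
    · rw [h1, h]
    · rw [h1, h, h2]
  have hprop : ∀ i j, i ≠ j → meet i j → τ' i ≠ τ' j := by
    intro i j hij hm
    have hsd := hmeet i j hm
    by_cases h : sd i.1.1 = true
    · have h' : sd j.1.1 = true := hsd.symm.trans h
      rw [ht1 i h, ht1 j h']
      refine hτ2 _ _ (fun hh => hij (congrArg Subtype.val hh)) (Or.inl hm)
    · have h0 := hff i h
      have h' : sd j.1.1 = false := hsd.symm.trans h0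
      rw [ht2 i h0, ht2 j h']
      refine hτ2 _ _ ?_ (Or.inr ?_)
      · intro hh
        have h3 := e.symm.injective hh
        exact hij (congrArg Subtype.val h3)
      · rw [Equiv.apply_symm_apply, Equiv.apply_symm_apply]
        exact hm
  have hmem : ∀ i, τ' i ∈ P0 := by
    intro i
    by_cases h : sd i.1.1 = true
    · rw [ht1 i h]
      exact (hτ1 _).1
    · rw [ht2 i (hff i h)]
      exact (hτ1 _).1
  have hpec : PEC Y P0 (tt Y r τ') := tt_pec hr hmem hprop
  obtain ⟨K, hK, hK0, hK1, hK2⟩ := exists_mts hpec
  have hcov : ∀ b β, (univ.filter (fun v => K b v ≠ v ∧ sd v = β)).card =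
      2 * (univ.filter (fun i : Ie Y r => τ' i = b ∧ sd i.1.1 = β)).card := by
    intro b β
    refine cov_card' hr hK0 hK1 hK2 (fun v => sd v = β) b _ _ ?_ ?_
    · intro v
      simp only [Finset.mem_filter, Finset.mem_univ, true_and]
      constructor
      · intro h
        exact ⟨h.1, Or.inl h.2⟩
      · intro h
        refine ⟨h.1, ?_⟩
        rcases h.2 with h2 | h2
        · exact h2
        · rw [hs _ _ (hK1 b v h.1).1]
          exact h2
    · intro i
      simp only [Finset.mem_filter, Finset.mem_univ, true_and]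
      constructor
      · intro h
        exact ⟨h.1, Or.inl h.2⟩
      · intro h
        refine ⟨h.1, ?_⟩
        rcases h.2 with h2 | h2
        · exact h2
        · rw [hs _ _ i.2.1]
          exact h2
  have hT : ∀ b, (univ.filter (fun i : Ie Y r => τ' i = b ∧ sd i.1.1 = true)).card =
      (univ.filter (fun j : {i : Ie Y r // sd i.1.1 = true} => τ j = b)).card := by
    intro b
    symm
    refine Finset.card_bij (fun j _ => j.1) ?_ ?_ ?_
    · intro j hj
      simp only [Finset.mem_filter, Finset.mem_univ, true_and] at hj ⊢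
      exact ⟨(ht1 j.1 j.2).trans hj, j.2⟩
    · intro j _ j' _ h
      exact Subtype.ext h
    · intro i hi
      simp only [Finset.mem_filter, Finset.mem_univ, true_and] at hi
      refine ⟨⟨i, hi.2⟩, ?_, rfl⟩
      simp only [Finset.mem_filter, Finset.mem_univ, true_and]
      exact (ht1 i hi.2).symm.trans hi.1
  have hF : ∀ b, (univ.filter (fun i : Ie Y r => τ' i = b ∧ sd i.1.1 = false)).card =
      (univ.filter (fun j : {i : Ie Y r // sd i.1.1 = true} => τ j = b)).card := by
    intro b
    symm
    refine Finset.card_bij (fun j _ => (e j).1) ?_ ?_ ?_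
    · intro j hj
      simp only [Finset.mem_filter, Finset.mem_univ, true_and] at hj ⊢
      refine ⟨?_, (e j).2⟩
      rw [ht2 (e j).1 (e j).2]
      rw [show (⟨(e j).1, (e j).2⟩ : {i : Ie Y r // sd i.1.1 = false}) = e j from rfl,
        Equiv.symm_apply_apply]
      exact hj
    · intro j _ j' _ h
      exact e.injective (Subtype.ext h)
    · intro i hi
      simp only [Finset.mem_filter, Finset.mem_univ, true_and] at hi
      refine ⟨e.symm ⟨i, hi.2⟩, ?_, ?_⟩
      · simp only [Finset.mem_filter, Finset.mem_univ, true_and]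
        exact (ht2 i hi.2).symm.trans hi.1
      · rw [Equiv.apply_symm_apply]
  refine ⟨K, hK, ?_, ?_⟩
  · intro v w hvw
    exact ⟨_, hpec.mem v w hvw, hK2 v w hvw⟩
  · intro b _
    have h1 := hcov b true
    have h2 := hcov b false
    rw [hT b] at h1
    rw [hF b] at h2
    have h3 := hτ3 PUnit.unit b
    have h4 : (univ.filter (fun j : {i : Ie Y r // sd i.1.1 = true} => τ j = b)).card ≤
        p / 100 := by
      refine (Finset.card_le_card ?_).trans h3
      intro j hj
      simp only [Finset.mem_filter, Finset.mem_univ, true_and] at hj ⊢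
      exact ⟨Or.inl trivial, hj⟩
    refine ⟨?_, ?_⟩
    · refine Eq.trans ?_ (h1.trans (h2.symm.trans ?_))
      · congr 1
      · congr 1
    · have h5 : (univ.filter (fun v => K b v ≠ v ∧ sd v = true)).card ≤ 2 * (p / 100) := by
        refine le_trans (le_of_eq h1) ?_
        omega
      refine le_trans (Nat.mul_le_mul_left 50 (le_trans (le_of_eq ?_) h5)) ?_
      · congr 1
      · omega

end Pool.Agent.Work.MP_db9399_lt.helper67
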