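import Pool.Agent.Work.MP_db9399_lt.Interface

/-!
# MP_db9399, THEOREM LT: colourings of edges and matchings (helper67)
-/

set_option autoImplicit false
set_option linter.unusedSectionVars false

namespace Pool.Agent.Work.MP_db9399_lt.helper67

open Finset Classical
open Pool.Agent.Work.MP_db9399_all (nb)
open Pool.Agent.Work.MP_db9399_nc (nn PEC Mts)

universe u

variable {V : Type u} [Fintype V]

theorem mem_nb {G : SimpleGraph V} {v w : V} : w ∈ nb G v ↔ G.Adj v w := by simp [nb]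

/-- the edges of `Y`, oriented by the numbering `r` -/
abbrev Ie (Y : SimpleGraph V) (r : V → ℕ) := {a : V × V // Y.Adj a.1 a.2 ∧ r a.1 < r a.2}

/-- number of items at a vertex -/
theorem itm_at (Y : SimpleGraph V) (r : V → ℕ) (v : V) :
    (univ.filter (fun i : Ie Y r => i.1.1 = v ∨ i.1.2 = v)).card ≤ (nb Y v).card := by
  have hinj : ∀ i ∈ univ.filter (fun i : Ie Y r =>
      i.1.1 = v ∨ i.1.2 = v), ∀ j ∈ univ.filter (fun i : Ie Y r =>
      i.1.1 = v ∨ i.1.2 = v),
      (if i.1.1 = v then i.1.2 else i.1.1) = (if j.1.1 = v then j.1.2 else j.1.1) → i = j := by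
    rintro ⟨⟨a, b⟩, hi⟩ hi' ⟨⟨a', b'⟩, hj⟩ hj' h
    simp only [Finset.mem_filter, Finset.mem_univ, true_and] at hi' hj'
    simp only at h
    have h1 : r a < r b := hi.2
    have h2 : r a' < r b' := hj.2
    have hab : a ≠ b := hi.1.ne
    have hab' : a' ≠ b' := hj.1.ne
    apply Subtype.ext
    simp only [Prod.mk.injEq]
    by_cases ha : a = v
    · by_cases ha' : a' = v
      · rw [if_pos ha, if_pos ha'] at h
        exact ⟨ha.trans ha'.symm, h⟩
      · rw [if_pos ha, if_neg ha'] at h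
        rcases hj' with hj' | hj'
        · exact absurd hj' ha'
        · exfalso
          rw [ha, h] at h1
          rw [hj'] at h2
          omega
    · rcases hi' with hi' | hi'
      · exact absurd hi' ha
      · by_cases ha' : a' = v
        · rw [if_neg ha, if_pos ha'] at h
          exfalso
          rw [hi', h] at h1
          rw [ha'] at h2
          omega
        · rcases hj' with hj' | hj'
          · exact absurd hj' ha'
          · rw [if_neg ha, if_neg ha'] at h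
            exact ⟨h, hi'.trans hj'.symm⟩
  refine Finset.card_le_card_of_injOn
    (fun i => if i.1.1 = v then i.1.2 else i.1.1) ?_ ?_
  · rintro ⟨⟨a, b⟩, hi⟩ hi'
    simp only [Finset.coe_filter, Finset.mem_univ, true_and, Set.mem_ofPred_eq] at hi'
    simp only [Finset.mem_coe, mem_nb]
    have h1 : Y.Adj a b := hi.1
    by_cases ha : a = v
    · subst ha
      simp only [if_true]
      exact h1
    · rcases hi' with hi' | hi'
      · exact absurd hi' ha
      · subst hi'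
        rw [if_neg ha]
        exact h1.symm
  · intro i hi j hj h
    exact hinj i (by simpa using hi) j (by simpa using hj) h

/-- two items have a common vertex -/
def meet {Y : SimpleGraph V} {r : V → ℕ} (i j : Ie Y r) : Prop :=
  i.1.1 = j.1.1 ∨ i.1.1 = j.1.2 ∨ i.1.2 = j.1.1 ∨ i.1.2 = j.1.2

theorem meet_symm {Y : SimpleGraph V} {r : V → ℕ} {i j : Ie Y r} (h : meet i j) : meet j i := by
  rcases h with h | h | h | h
  · exact Or.inl h.symm
  · exact Or.inr (Or.inr (Or.inl h.symm))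
  · exact Or.inr (Or.inl h.symm)
  · exact Or.inr (Or.inr (Or.inr h.symm))

theorem meet_card {Y : SimpleGraph V} {r : V → ℕ} {l : ℕ} (hl : ∀ v, (nb Y v).card ≤ l)
    (i : Ie Y r) : (univ.filter (fun j : Ie Y r => meet i j)).card ≤ 2 * l := by
  have h1 := (itm_at Y r i.1.1).trans (hl i.1.1)
  have h2 := (itm_at Y r i.1.2).trans (hl i.1.2)
  have h3 : (univ.filter (fun j : Ie Y r => meet i j)) ⊆
      univ.filter (fun j : Ie Y r => j.1.1 = i.1.1 ∨ j.1.2 = i.1.1) ∪
      univ.filter (fun j : Ie Y r => j.1.1 = i.1.2 ∨ j.1.2 = i.1.2) := by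
    intro j hj
    simp only [Finset.mem_filter, Finset.mem_univ, true_and, Finset.mem_union] at hj ⊢
    rcases hj with h | h | h | h
    · exact Or.inl (Or.inl h.symm)
    · exact Or.inl (Or.inr h.symm)
    · exact Or.inr (Or.inl h.symm)
    · exact Or.inr (Or.inr h.symm)
  have h4 := Finset.card_le_card h3
  have h5 := Finset.card_union_le
    (univ.filter (fun j : Ie Y r => j.1.1 = i.1.1 ∨ j.1.2 = i.1.1))
    (univ.filter (fun j : Ie Y r => j.1.1 = i.1.2 ∨ j.1.2 = i.1.2))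
  omega

/-- items meeting a set -/
theorem itm_set {Y : SimpleGraph V} {r : V → ℕ} {l : ℕ} (hl : ∀ v, (nb Y v).card ≤ l)
    (A : Finset V) :
    (univ.filter (fun i : Ie Y r => i.1.1 ∈ A ∨ i.1.2 ∈ A)).card ≤ A.card * l := by
  have h1 : (univ.filter (fun i : Ie Y r => i.1.1 ∈ A ∨ i.1.2 ∈ A)) ⊆
      A.biUnion (fun v => univ.filter (fun i : Ie Y r => i.1.1 = v ∨ i.1.2 = v)) := by
    intro i hi
    simp only [Finset.mem_filter, Finset.mem_univ, true_and, Finset.mem_biUnion] at hi ⊢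
    rcases hi with h | h
    · exact ⟨i.1.1, h, Or.inl rfl⟩
    · exact ⟨i.1.2, h, Or.inr rfl⟩
  refine (Finset.card_le_card h1).trans ?_
  refine Finset.card_biUnion_le_card_mul _ _ _ ?_
  intro v _
  exact (itm_at Y r v).trans (hl v)

/-- the colouring of the pairs given by a colouring of the items -/
noncomputable def tt (Y : SimpleGraph V) (r : V → ℕ) (τ : Ie Y r → ℕ) (v w : V) : ℕ :=
  if h : Y.Adj v w ∧ r v < r w then τ ⟨(v, w), h⟩ else
    if h : Y.Adj w v ∧ r w < r v then τ ⟨(w, v), h⟩ else 0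

theorem tt_itm {Y : SimpleGraph V} {r : V → ℕ} {τ : Ie Y r → ℕ} (i : Ie Y r) :
    tt Y r τ i.1.1 i.1.2 = τ i := by
  unfold tt
  rw [dif_pos i.2]

theorem tt_symm {Y : SimpleGraph V} {r : V → ℕ} {τ : Ie Y r → ℕ} (v w : V) :
    tt Y r τ v w = tt Y r τ w v := by
  unfold tt
  by_cases h1 : Y.Adj v w ∧ r v < r w
  · have h2 : ¬ (Y.Adj w v ∧ r w < r v) := fun h => by
      have := h1.2
      have := h.2
      omega
    rw [dif_pos h1, dif_neg h2, dif_pos h1]
  · by_cases h2 : Y.Adj w v ∧ r w < r v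
    · rw [dif_neg h1, dif_pos h2, dif_pos h2]
    · rw [dif_neg h1, dif_neg h2, dif_neg h2, dif_neg h1]

theorem tt_ex {Y : SimpleGraph V} {r : V → ℕ} (hr : Function.Injective r) (τ : Ie Y r → ℕ)
    {v w : V} (h : Y.Adj v w) : ∃ i : Ie Y r, ((i.1.1 = v ∧ i.1.2 = w) ∨
      (i.1.1 = w ∧ i.1.2 = v)) ∧ tt Y r τ v w = τ i := by
  have hvw : r v ≠ r w := fun hh => h.ne (hr hh)
  by_cases h1 : r v < r w
  · exact ⟨⟨(v, w), h, h1⟩, Or.inl ⟨rfl, rfl⟩, tt_itm ⟨(v, w), h, h1⟩⟩
  · have h2 : r w < r v := by omega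
    refine ⟨⟨(w, v), h.symm, h2⟩, Or.inr ⟨rfl, rfl⟩, ?_⟩
    rw [tt_symm]
    exact tt_itm ⟨(w, v), h.symm, h2⟩

theorem tt_pec {Y : SimpleGraph V} {r : V → ℕ} (hr : Function.Injective r) {τ : Ie Y r → ℕ}
    {P : Finset ℕ} (hP : ∀ i, τ i ∈ P) (hp : ∀ i j, i ≠ j → meet i j → τ i ≠ τ j) :
    PEC Y P (tt Y r τ) := by
  refine ⟨tt_symm, ?_, ?_⟩
  · intro v w h
    obtain ⟨i, _, hi⟩ := tt_ex hr τ h
    rw [hi]
    exact hP i
  · intro v w1 hw1 w2 hw2 heq
    have h1 : Y.Adj v w1 := by simpa [nb] using hw1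
    have h2 : Y.Adj v w2 := by simpa [nb] using hw2
    obtain ⟨i, hi, hti⟩ := tt_ex hr τ h1
    obtain ⟨j, hj, htj⟩ := tt_ex hr τ h2
    by_contra hne
    have heq' : τ i = τ j := by rw [← hti, ← htj]; exact heq
    have hij : i ≠ j := by
      rintro rfl
      rcases hi with ⟨a1, a2⟩ | ⟨a1, a2⟩ <;> rcases hj with ⟨b1, b2⟩ | ⟨b1, b2⟩
      · exact hne (a2.symm.trans b2)
      · exact h2.ne (a1.symm.trans b1)
      · exact h1.ne (b1.symm.trans a1)
      · exact hne (a1.symm.trans b1)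
    refine hp i j hij ?_ heq'
    rcases hi with ⟨a1, _⟩ | ⟨_, a1⟩ <;> rcases hj with ⟨b1, _⟩ | ⟨_, b1⟩
    · exact Or.inl (a1.trans b1.symm)
    · exact Or.inr (Or.inl (a1.trans b1.symm))
    · exact Or.inr (Or.inr (Or.inl (a1.trans b1.symm)))
    · exact Or.inr (Or.inr (Or.inr (a1.trans b1.symm)))

/-- the matchings of the colours -/
theorem exists_mts {Y : SimpleGraph V} {P : Finset ℕ} {t : V → V → ℕ} (ht : PEC Y P t) :
    ∃ K : ℕ → V → V, Mts Y P K ∧ (∀ b v, K b (K b v) = v) ∧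
      (∀ b v, K b v ≠ v → Y.Adj v (K b v) ∧ t v (K b v) = b) ∧
      ∀ v w, Y.Adj v w → K (t v w) v = w := by
  let K : ℕ → V → V := fun b v =>
    if h : ∃ w, Y.Adj v w ∧ t v w = b then Classical.choose h else v
  have hK1 : ∀ b v, K b v ≠ v → Y.Adj v (K b v) ∧ t v (K b v) = b := by
    intro b v h
    by_cases h1 : ∃ w, Y.Adj v w ∧ t v w = b
    · have h2 : K b v = Classical.choose h1 := dif_pos h1
      rw [h2]
      exact Classical.choose_spec h1
    · exact absurd (dif_neg h1) h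
  have hK2 : ∀ v w, Y.Adj v w → K (t v w) v = w := by
    intro v w h
    have h1 : ∃ w', Y.Adj v w' ∧ t v w' = t v w := ⟨w, h, rfl⟩
    have h2 : K (t v w) v = Classical.choose h1 := dif_pos h1
    rw [h2]
    have h3 := Classical.choose_spec h1
    exact ht.inj v (by simpa [nb] using h3.1) (by simpa [nb] using h) h3.2
  have hK3 : ∀ b v, K b (K b v) = v := by
    intro b v
    by_cases h : K b v = v
    · rw [h, h]
    · obtain ⟨h1, h2⟩ := hK1 b v h
      have h3 := hK2 (K b v) v h1.symm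
      rw [ht.sym, h2] at h3
      exact h3
  refine ⟨K, ⟨fun b _ v => hK3 b v, fun b _ v h => (hK1 b v h).1, ?_⟩, hK3, hK1, hK2⟩
  intro b _ b' _ hbb v h h'
  have h1 := (hK1 b v h).2
  have h2 := (hK1 b' v (by rw [← h']; exact h)).2
  rw [← h'] at h2
  exact hbb (h1.symm.trans h2)

/-- the number of covered vertices -/
theorem cov_card {Y : SimpleGraph V} {r : V → ℕ} (hr : Function.Injective r) {τ : Ie Y r → ℕ}
    {K : ℕ → V → V} (hK0 : ∀ b v, K b (K b v) = v)
    (hK1 : ∀ b v, K b v ≠ v → Y.Adj v (K b v) ∧ tt Y r τ v (K b v) = b)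
    (hK2 : ∀ v w, Y.Adj v w → K (tt Y r τ v w) v = w) (S : V → Prop) (b : ℕ) :
    (univ.filter (fun v => K b v ≠ v ∧ (S v ∨ S (K b v)))).card =
      2 * (univ.filter (fun i : Ie Y r => τ i = b ∧ (S i.1.1 ∨ S i.1.2))).card := by
  have h1 : (univ.filter (fun i : Ie Y r => τ i = b ∧ (S i.1.1 ∨ S i.1.2))).card =
      (univ.filter (fun v => (K b v ≠ v ∧ (S v ∨ S (K b v))) ∧ r v < r (K b v))).card := by
    refine Finset.card_bij (fun i _ => i.1.1) ?_ ?_ ?_
    · intro i hi
      simp only [Finset.mem_filter, Finset.mem_univ, true_and] at hi ⊢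
      have h2 := hK2 i.1.1 i.1.2 i.2.1
      rw [tt_itm, hi.1] at h2
      rw [h2]
      exact ⟨⟨i.2.1.ne', hi.2⟩, i.2.2⟩
    · intro i hi j hj hij
      simp only [Finset.mem_filter, Finset.mem_univ, true_and] at hi hj
      have h2 := hK2 i.1.1 i.1.2 i.2.1
      rw [tt_itm, hi.1] at h2
      have h3 := hK2 j.1.1 j.1.2 j.2.1
      rw [tt_itm, hj.1] at h3
      apply Subtype.ext
      apply Prod.ext hij
      rw [← h2, ← h3, hij]
    · intro v hv
      simp only [Finset.mem_filter, Finset.mem_univ, true_and] at hv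
      obtain ⟨h2, h3⟩ := hK1 b v hv.1.1
      refine ⟨⟨(v, K b v), h2, hv.2⟩, ?_, rfl⟩
      simp only [Finset.mem_filter, Finset.mem_univ, true_and]
      exact ⟨(tt_itm (τ := τ) ⟨(v, K b v), h2, hv.2⟩).symm.trans h3, hv.1.2⟩
  have h2 : (univ.filter (fun v => (K b v ≠ v ∧ (S v ∨ S (K b v))) ∧ ¬ r v < r (K b v))).card =
      (univ.filter (fun v => (K b v ≠ v ∧ (S v ∨ S (K b v))) ∧ r v < r (K b v))).card := by
    refine Finset.card_bij (fun v _ => K b v) ?_ ?_ ?_
    · intro v hv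
      simp only [Finset.mem_filter, Finset.mem_univ, true_and] at hv ⊢
      rw [hK0]
      have h3 : r v ≠ r (K b v) := fun hh => hv.1.1 (hr hh).symm
      refine ⟨⟨hv.1.1.symm, hv.1.2.symm⟩, by omega⟩
    · intro v _ w _ h
      rw [← hK0 b v, h, hK0]
    · intro v hv
      simp only [Finset.mem_filter, Finset.mem_univ, true_and] at hv
      refine ⟨K b v, ?_, hK0 b v⟩
      simp only [Finset.mem_filter, Finset.mem_univ, true_and]
      rw [hK0]
      refine ⟨⟨hv.1.1.symm, hv.1.2.symm⟩, by omega⟩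
  have h3 := Finset.card_filter_add_card_filter_not
    (s := univ.filter (fun v => K b v ≠ v ∧ (S v ∨ S (K b v))))
    (fun v => r v < r (K b v))
  rw [Finset.filter_filter, Finset.filter_filter] at h3
  rw [h1]
  omega

/-- the number of covered vertices, without instances -/
theorem cov_card' {Y : SimpleGraph V} {r : V → ℕ} (hr : Function.Injective r)
    {τ : Ie Y r → ℕ}
    {K : ℕ → V → V} (hK0 : ∀ b v, K b (K b v) = v)
    (hK1 : ∀ b v, K b v ≠ v → Y.Adj v (K b v) ∧ tt Y r τ v (K b v) = b)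
    (hK2 : ∀ v w, Y.Adj v w → K (tt Y r τ v w) v = w) (S : V → Prop) (b : ℕ)
    (U : Finset V) (W : Finset (Ie Y r))
    (hU : ∀ v, v ∈ U ↔ (K b v ≠ v ∧ (S v ∨ S (K b v))))
    (hW : ∀ i, i ∈ W ↔ (τ i = b ∧ (S i.1.1 ∨ S i.1.2))) :
    U.card = 2 * W.card := by
  have h1 := cov_card hr hK0 hK1 hK2 S b
  have h2 : U = univ.filter (fun v => K b v ≠ v ∧ (S v ∨ S (K b v))) := by
    ext v
    rw [hU, Finset.mem_filter]
    exact ⟨fun h => ⟨Finset.mem_univ _, h⟩, fun h => h.2⟩
  have h3 : W = univ.filter (fun i : Ie Y r => τ i = b ∧ (S i.1.1 ∨ S i.1.2)) := by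
    ext v
    rw [hW, Finset.mem_filter]
    exact ⟨fun h => ⟨Finset.mem_univ _, h⟩, fun h => h.2⟩
  rw [h2, h3]
  exact h1

/-- a numbering of the vertices -/
theorem exists_num : ∃ r : V → ℕ, Function.Injective r :=
  ⟨fun v => (Fintype.equivFin V v : ℕ), fun _ _ h => (Fintype.equivFin V).injective
      (Fin.ext h)⟩

end Pool.Agent.Work.MP_db9399_lt.helper67
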