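import Pool.Agent.Work.MP_db9399_lt_helper67.EDG

/-!
# MP_db9399, THEOREM LT: block LCOL (a sparse graph is coloured with small classes)
-/

set_option autoImplicit false
set_option linter.unusedSectionVars false

namespace Pool.Agent.Work.MP_db9399_lt.helper67

open Finset Classical
open Pool.Agent.Work.MP_db9399_all (nb)
open Pool.Agent.Work.MP_db9399_nc (nn PEC Mts)

universe u

theorem stmt_LCOL (hG : Pool.Agent.Work.MP_db9399_nc.Stmt_GRS.{u}) : Stmt_LCOL.{u} := by
  intro V _ Y F Q A d h x hdeg hF hx hx1 hh hV hA hQ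
  obtain ⟨r, hr⟩ := exists_num (V := V)
  have hl : ∀ v, (nb Y v).card ≤ h / 1000 := fun v => by
    have := hdeg v
    omega
  have hall := itm_set (r := r) hl (univ : Finset V)
  have hAA := itm_set (r := r) hl A
  have hN : 1000 * (h / 1000) ≤ h := by omega
  -- numerical facts
  have e1 : (univ : Finset V).card * (h / 1000) ≤ h / 5 * (d / 100) := by
    have h1 : 100 * (univ : Finset V).card ≤ 102 * d := by
      rw [Finset.card_univ]
      exact hV
    have h2 : (100 * (univ : Finset V).card) * (1000 * (h / 1000)) ≤ (102 * d) * h :=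
      Nat.mul_le_mul h1 hN
    have h3 : 4 * h ≤ 21 * (h / 5) := by omega
    have h4 : 100 * d ≤ 101 * (100 * (d / 100)) := by omega
    have h5 : (4 * h) * (100 * d) ≤ (21 * (h / 5)) * (101 * (100 * (d / 100))) :=
      Nat.mul_le_mul h3 h4
    generalize (univ : Finset V).card = a at *
    generalize h / 1000 = b at *
    generalize h / 5 = c at *
    generalize d / 100 = e at *
    nlinarith
  have e2 : A.card * (h / 1000) ≤ h / 5 * (h / 10) := by
    have h2 : A.card * (1000 * (h / 1000)) ≤ (8 * h) * h :=
      Nat.mul_le_mul hA hN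
    have h3 : 4 * h ≤ 21 * (h / 5) := by omega
    have h4 : 10 * h ≤ 11 * (10 * (h / 10)) := by omega
    have h5 : (4 * h) * (10 * h) ≤ (21 * (h / 5)) * (11 * (10 * (h / 10))) :=
      Nat.mul_le_mul h3 h4
    generalize A.card = a at *
    generalize h / 1000 = b at *
    generalize h / 5 = c at *
    generalize h / 10 = e at *
    nlinarith
  let s : ULift.{u} ℕ → ℕ := fun j => if j.down = 0 then d / 100 else
    if j.down = 1 then h / 10 else Fintype.card (Ie Y r) + 1
  obtain ⟨τ, hτ1, hτ2, hτ3⟩ := hG (ι := Ie Y r) (β := ULift.{u} ℕ) meet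
    (fun _ => ULift.up 0) (fun i => if i.1.1 ∈ A ∨ i.1.2 ∈ A then ULift.up 1 else ULift.up 2)
    s (h / 5) (2 * (h / 1000)) (2 * x) Q (fun i => F i.1.1 ∪ F i.1.2)
    (fun i j hij => meet_symm hij) (fun i => meet_card hl i)
    (fun i => (Finset.card_union_le _ _).trans (by
      have := hF i.1.1
      have := hF i.1.2
      omega))
    (by
      rintro ⟨j⟩
      simp only [s]
      split_ifs
      · omega
      · omega
      · omega)
    (by
      rintro ⟨j⟩
      simp only [s]
      split_ifs with hj1 hj2
      · refine (Finset.card_le_univ _).trans ?_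
        refine le_trans ?_ (hall.trans e1)
        rw [← Finset.card_univ]
        refine Finset.card_le_card ?_
        intro i _
        simp
      · refine le_trans (Finset.card_le_card ?_) (hAA.trans e2)
        intro i hi
        simp only [Finset.mem_filter, Finset.mem_univ, true_and] at hi ⊢
        rcases hi with hi | hi
        · exact absurd (ULift.up.inj hi).symm hj1
        · by_contra hn
          rw [if_neg hn] at hi
          have := ULift.up.inj hi
          omega
      · refine (Finset.card_le_univ _).trans ?_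
        have h5 : 1 ≤ h / 5 := by omega
        calc Fintype.card (Ie Y r) ≤ 1 * (Fintype.card (Ie Y r) + 1) := by omega
          _ ≤ _ := Nat.mul_le_mul_right _ h5)
    (by omega)
  have hpec : PEC Y Q (tt Y r τ) := tt_pec hr (fun i => (hτ1 i).1) hτ2
  obtain ⟨K, hK, hK0, hK1, hK2⟩ := exists_mts hpec
  refine ⟨K, hK, ?_, ?_, ?_, ?_⟩
  · intro b _ v hv
    obtain ⟨h1, h2⟩ := hK1 b v hv
    obtain ⟨i, hi, hti⟩ := tt_ex hr τ h1
    rw [← h2, hti]
    intro hm
    apply (hτ1 i).2
    rw [Finset.mem_union]
    rcases hi with ⟨a1, _⟩ | ⟨_, a1⟩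
    · left
      rw [a1]
      exact hm
    · right
      rw [a1]
      exact hm
  · intro v w hvw
    exact ⟨_, hpec.mem v w hvw, hK2 v w hvw⟩
  · intro b _
    have h1 := cov_card' hr hK0 hK1 hK2 (fun _ => True) b
      (univ.filter (fun v => K b v ≠ v)) (univ.filter (fun i : Ie Y r => τ i = b))
      (fun v => by simp) (fun i => by simp)
    have h2 := hτ3 (ULift.up 0) b
    have hs : s (ULift.up 0) = d / 100 := rfl
    rw [hs] at h2
    have h4 : (univ.filter (fun i : Ie Y r => τ i = b)).card ≤ d / 100 := by
      refine (Finset.card_le_card ?_).trans h2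
      intro i hi
      simp only [Finset.mem_filter, Finset.mem_univ, true_and] at hi ⊢
      exact ⟨Or.inl trivial, hi⟩
    omega
  · intro b _
    have h1 := cov_card' hr hK0 hK1 hK2 (fun v => v ∈ A) b
      (univ.filter (fun v => K b v ≠ v ∧ (v ∈ A ∨ K b v ∈ A)))
      (univ.filter (fun i : Ie Y r => τ i = b ∧ (i.1.1 ∈ A ∨ i.1.2 ∈ A)))
      (fun v => by simp) (fun i => by simp)
    have h2 := hτ3 (ULift.up 1) b
    have hs : s (ULift.up 1) = h / 10 := rfl
    rw [hs] at h2
    have h3 : (A.filter (fun v => K b v ≠ v)).card ≤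
        (univ.filter (fun v => K b v ≠ v ∧ (v ∈ A ∨ K b v ∈ A))).card := by
      refine Finset.card_le_card ?_
      intro v hv
      rw [Finset.mem_filter] at hv ⊢
      exact ⟨Finset.mem_univ _, hv.2, Or.inl hv.1⟩
    have h4 : (univ.filter (fun i : Ie Y r => τ i = b ∧ (i.1.1 ∈ A ∨ i.1.2 ∈ A))).card ≤
        h / 10 := by
      refine (Finset.card_le_card ?_).trans h2
      intro i hi
      simp only [Finset.mem_filter, Finset.mem_univ, true_and] at hi ⊢
      exact ⟨Or.inr (if_pos hi.2), hi.1⟩
    omega

end Pool.Agent.Work.MP_db9399_lt.helper67
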